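import Mathlib

namespace Pool.Agent.Helper1.Rot

open Filter Topology Set

noncomputable section

/-- the group of lifts of circle homeomorphisms -/
abbrev GG := CircleDeg1Liftˣ

/-- translation by `t` -/
def TT (t : ℝ) : GG := CircleDeg1Lift.translate (Multiplicative.ofAdd t)

theorem TT_apply (t x : ℝ) : TT t x = t + x := CircleDeg1Lift.translate_apply t x

theorem coe_inj {f g : GG} (h : ∀ x, f x = g x) : f = g := by
  apply Units.ext
  apply CircleDeg1Lift.ext
  exact h

theorem coe_mul' (f g : GG) (x : ℝ) : (f * g : GG) x = f (g x) := rfl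
theorem coe_one' (x : ℝ) : (1 : GG) x = x := rfl

theorem TT_add (s t : ℝ) : TT (s + t) = TT s * TT t := by
  apply coe_inj
  intro x
  rw [coe_mul', TT_apply, TT_apply, TT_apply]; ring

theorem TT_pow (t : ℝ) (n : ℕ) : TT t ^ n = TT (n * t) := by
  induction n with
  | zero => apply coe_inj; intro x; simp [TT_apply, coe_one']
  | succ n ih =>
    rw [pow_succ, ih, ← TT_add]
    congr 1; push_cast; ring

theorem TT_int_comm (p : ℤ) (g : GG) : g * TT p = TT p * g := by
  apply coe_inj
  intro x
  rw [coe_mul', coe_mul', TT_apply, TT_apply]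
  exact CircleDeg1Lift.map_int_add _ _ _

theorem units_continuous (g : GG) : Continuous (g : ℝ → ℝ) := by
  have : (⇑(CircleDeg1Lift.toOrderIso g) : ℝ → ℝ) = g := CircleDeg1Lift.coe_toOrderIso g
  rw [← this]
  exact (CircleDeg1Lift.toOrderIso g).continuous

theorem units_strictMono (g : GG) : StrictMono (g : ℝ → ℝ) := by
  have : (⇑(CircleDeg1Lift.toOrderIso g) : ℝ → ℝ) = g := CircleDeg1Lift.coe_toOrderIso g
  rw [← this]
  exact (CircleDeg1Lift.toOrderIso g).strictMono

/-- a unit from a strictly monotone continuous map -/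
theorem exists_unit (h : ℝ → ℝ) (h1 : StrictMono h) (h2 : Continuous h) (h3 : ∀ x, h (x+1) = h x + 1) :
    ∃ g : GG, ∀ x, g x = h x := by
  let H : CircleDeg1Lift := ⟨⟨h, h1.monotone⟩, h3⟩
  have hc : Continuous H := h2
  have hs : Function.Surjective H := (CircleDeg1Lift.continuous_iff_surjective H).1 hc
  have hi : Function.Injective H := h1.injective
  have hu : IsUnit H := CircleDeg1Lift.isUnit_iff_bijective.2 ⟨hi, hs⟩
  obtain ⟨g, hg⟩ := hu
  refine ⟨g, fun x => ?_⟩
  show (g : CircleDeg1Lift) x = h x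
  rw [hg]
  rfl

theorem pow_succ_apply (f : GG) (n : ℕ) (x : ℝ) : (f ^ (n+1) : GG) x = (f ^ n : GG) (f x) := by
  rw [pow_succ]; rfl

/-- conjugacy to a rational rotation -/
theorem isConj_rat_iff (f : GG) (p : ℤ) {q : ℕ} (hq : 0 < q) :
    IsConj f (TT ((p:ℝ) / q)) ↔ f ^ q = TT p := by
  have hq' : (q:ℝ) ≠ 0 := by exact_mod_cast hq.ne'
  constructor
  · intro h
    rw [isConj_iff] at h
    obtain ⟨c, hc⟩ := h
    have h1 : f = c⁻¹ * TT ((p:ℝ)/q) * c := by rw [← hc]; group
    have h2 : f ^ q = c⁻¹ * TT ((p:ℝ)/q) ^ q * c := by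
      rw [h1]
      have := conj_pow (a := c⁻¹) (b := TT ((p:ℝ)/q)) (i := q)
      rw [inv_inv] at this
      exact this
    rw [h2, TT_pow]
    have : (q:ℝ) * ((p:ℝ) / q) = p := by field_simp
    rw [this]
    rw [TT_int_comm p c⁻¹, mul_assoc, inv_mul_cancel, mul_one]
  · intro h
    set s : ℝ := (p:ℝ)/q with hs
    have c1 : StrictMono (fun x => (∑ i ∈ Finset.range q, ((f ^ i : GG) x - i * s)) / q) := by
      intro x y hxy
      simp only
      have hq0 : (0:ℝ) < q := by exact_mod_cast hq
      apply div_lt_div_of_pos_right _ hq0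
      apply Finset.sum_lt_sum_of_nonempty
      · exact ⟨0, by simpa using hq⟩
      · intro i _
        have := units_strictMono (f ^ i) hxy
        linarith
    have c2 : Continuous (fun x => (∑ i ∈ Finset.range q, ((f ^ i : GG) x - i * s)) / q) := by
      apply Continuous.div_const
      apply continuous_finsetSum
      intro i _
      exact (units_continuous (f ^ i)).sub continuous_const
    have c3 : ∀ x, (fun x => (∑ i ∈ Finset.range q, ((f ^ i : GG) x - i * s)) / q) (x+1)
        = (fun x => (∑ i ∈ Finset.range q, ((f ^ i : GG) x - i * s)) / q) x + 1 := by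
      intro x
      have e1 : ∀ i : ℕ, (f ^ i : GG) (x + 1) = (f ^ i : GG) x + 1 := fun i => CircleDeg1Lift.map_add_one _ _
      simp only [e1]
      rw [div_add' _ _ _ hq']
      congr 1
      rw [one_mul, ← sub_eq_iff_eq_add', ← Finset.sum_sub_distrib]
      have e9 : ∀ i ∈ Finset.range q, ((f ^ i : GG) x + 1 - i * s) - ((f ^ i : GG) x - i * s) = 1 := by
        intro i _; ring
      rw [Finset.sum_congr rfl e9, Finset.sum_const, Finset.card_range, nsmul_eq_mul, mul_one]
    obtain ⟨H, hH⟩ := exists_unit _ c1 c2 c3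
    rw [isConj_iff]
    refine ⟨H, ?_⟩
    rw [mul_inv_eq_iff_eq_mul]
    apply coe_inj
    intro x
    rw [coe_mul', coe_mul', TT_apply, hH, hH]
    have e1 : ∀ i : ℕ, (f ^ i : GG) (f x) = (f ^ (i+1) : GG) x := fun i => (pow_succ_apply f i x).symm
    simp only [e1]
    have e2 := Finset.sum_range_succ (fun i : ℕ => (f ^ i : GG) x - i * s) q
    have e3 := Finset.sum_range_succ' (fun i : ℕ => (f ^ i : GG) x - i * s) q
    have e4 : ∑ i ∈ Finset.range q, ((f ^ (i+1) : GG) x - i * s)
        = ∑ i ∈ Finset.range q, ((f ^ (i+1) : GG) x - ((i+1 : ℕ) : ℝ) * s) + q * s := by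
      rw [← sub_eq_iff_eq_add', ← Finset.sum_sub_distrib]
      rw [Finset.sum_congr rfl (fun i _ => show ((f ^ (i+1) : GG) x - i * s) - ((f ^ (i+1) : GG) x - ((i+1 : ℕ) : ℝ) * s) = s by push_cast; ring)]
      simp
    rw [e4]
    have e5 : (f ^ q : GG) x = p + x := by rw [h, TT_apply]
    have e6 : (f ^ 0 : GG) x = x := by rw [pow_zero]; rfl
    simp only [e5, e6] at e2 e3
    have e7 : (q:ℝ) * s = p := by rw [hs]; field_simp
    have e8 : ∑ i ∈ Finset.range q, ((f ^ (i+1) : GG) x - ((i+1 : ℕ) : ℝ) * s)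
      = ∑ i ∈ Finset.range q, ((f ^ i : GG) x - i * s) := by
      push_cast at e2 e3 ⊢
      linarith
    rw [e8, add_div, mul_div_cancel_left₀ _ hq', add_comm]

/-! ### the bi-Lipschitz normalisation -/

theorem disp_le (f : GG) (x : ℝ) : |f x - x| ≤ |f 0| + 1 := by
  have h : f (Int.fract x) - Int.fract x = f x - x := CircleDeg1Lift.map_fract_sub_fract_eq _ _
  have h0 := Int.fract_nonneg x
  have h1 := Int.fract_lt_one x
  have m1 : f 0 ≤ f (Int.fract x) := (units_strictMono f).monotone h0
  have m2 : f (Int.fract x) ≤ f 1 := (units_strictMono f).monotone h1.le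
  have m3 : f 1 = f 0 + 1 := by
    have := CircleDeg1Lift.map_add_one (f : CircleDeg1Lift) 0
    rw [zero_add] at this
    exact this
  rw [← h, abs_le]
  have := neg_abs_le (f 0)
  have := le_abs_self (f 0)
  constructor <;> linarith

variable {I : Type*} [Fintype I]

/-- the letters: generators and their inverses -/
def lt (g : I → GG) (l : I × Bool) : GG := cond l.2 (g l.1) (g l.1)⁻¹

/-- number of letters -/
def nc (I : Type*) [Fintype I] : ℝ := (Fintype.card (I × Bool) : ℝ)

theorem nc_pos [Nonempty I] : 0 < nc I := by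
  unfold nc
  exact_mod_cast Fintype.card_pos

/-- iterated averages -/
def Dn (g : I → GG) : ℕ → ℝ → ℝ
  | 0, x => x
  | n+1, x => (∑ l, Dn g n (lt g l x)) / nc I

/-- displacement bound -/
def Cb (g : I → GG) : ℝ := ∑ l : I × Bool, (|lt g l 0| + 1)

theorem Cb_ge (g : I → GG) (l : I × Bool) (x : ℝ) : |lt g l x - x| ≤ Cb g :=
  (disp_le _ _).trans (Finset.single_le_sum (f := fun l : I × Bool => |lt g l 0| + 1)
    (fun _ _ => by positivity) (Finset.mem_univ l))

theorem Dn_add_one [Nonempty I] (g : I → GG) (n : ℕ) : ∀ x, Dn g n (x+1) = Dn g n x + 1 := by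
  induction n with
  | zero => intro x; rfl
  | succ n ih =>
    intro x
    have hc := nc_pos (I := I)
    simp only [Dn]
    have e : ∀ l, lt g l (x+1) = lt g l x + 1 := fun l => CircleDeg1Lift.map_add_one _ _
    simp only [e, ih]
    rw [Finset.sum_add_distrib, add_div]
    congr 1
    rw [Finset.sum_const, Finset.card_univ, nsmul_eq_mul, mul_one]
    exact div_self hc.ne'

theorem Dn_mono (g : I → GG) (n : ℕ) : Monotone (Dn g n) := by
  induction n with
  | zero => intro x y h; exact h
  | succ n ih =>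
    intro x y h
    simp only [Dn]
    apply div_le_div_of_nonneg_right _ (by unfold nc; positivity)
    apply Finset.sum_le_sum
    intro l _
    exact ih ((units_strictMono _).monotone h)

theorem Dn_cont (g : I → GG) (n : ℕ) : Continuous (Dn g n) := by
  induction n with
  | zero => exact continuous_id
  | succ n ih =>
    show Continuous (fun x => (∑ l, Dn g n (lt g l x)) / nc I)
    apply Continuous.div_const
    apply continuous_finsetSum
    intro l _
    exact ih.comp (units_continuous _)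

theorem Dn_bound [Nonempty I] (g : I → GG) (n : ℕ) : ∀ x, |Dn g n x - x| ≤ n * Cb g := by
  induction n with
  | zero => intro x; simp [Dn]
  | succ n ih =>
    intro x
    have hc := nc_pos (I := I)
    have e : Dn g (n+1) x - x = (∑ l, (Dn g n (lt g l x) - x)) / nc I := by
      rw [Finset.sum_sub_distrib, sub_div]
      simp only [Dn]
      congr 1
      rw [Finset.sum_const, Finset.card_univ, nsmul_eq_mul]
      rw [show ((Fintype.card (I × Bool) : ℕ) : ℝ) = nc I from rfl]
      field_simp
    rw [e, abs_div, abs_of_pos hc, div_le_iff₀ hc]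
    calc |∑ l, (Dn g n (lt g l x) - x)| ≤ ∑ l, |Dn g n (lt g l x) - x| := Finset.abs_sum_le_sum_abs _ _
      _ ≤ ∑ _l : I × Bool, ((n:ℝ) + 1) * Cb g := by
          apply Finset.sum_le_sum
          intro l _
          have h1 := ih (lt g l x)
          have h2 := Cb_ge g l x
          have h3 : |Dn g n (lt g l x) - x| ≤ |Dn g n (lt g l x) - lt g l x| + |lt g l x - x| := abs_sub_le _ _ _
          linarith
      _ = _ := by
          rw [Finset.sum_const, Finset.card_univ, nsmul_eq_mul]
          rw [show ((Fintype.card (I × Bool) : ℕ) : ℝ) = nc I from rfl]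
          push_cast; ring

theorem summable_aux (C : ℝ) : Summable (fun n : ℕ => (n:ℝ) * C / 2^(n+1)) := by
  have h := (summable_pow_mul_geometric_of_norm_lt_one 1 (r := (1/2:ℝ)) (by norm_num)).mul_right (C/2)
  refine h.congr ?_
  intro n
  rw [pow_succ (2:ℝ) n, pow_one, one_div, inv_pow]
  field_simp

theorem summable_half : Summable (fun n : ℕ => (1:ℝ) / 2^(n+1)) := by
  have h := (summable_geometric_two).mul_right (1/2 : ℝ)
  refine h.congr ?_
  intro n
  rw [pow_succ]
  simp only [one_div, inv_pow]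
  field_simp

theorem tsum_half : ∑' n : ℕ, (1:ℝ) / 2^(n+1) = 1 := by
  have h := tsum_geometric_two
  have h2 : ∑' n : ℕ, (1:ℝ) / 2^(n+1) = ∑' n : ℕ, ((1/2:ℝ)^n) * (1/2) := by
    apply tsum_congr
    intro n
    rw [pow_succ]
    simp only [one_div, inv_pow]
    field_simp
  rw [h2, tsum_mul_right, h]; norm_num

theorem summable_Dn [Nonempty I] (g : I → GG) (x : ℝ) : Summable (fun n : ℕ => Dn g n x / 2^(n+1)) := by
  have h : Summable (fun n : ℕ => (Dn g n x - x) / 2^(n+1)) := by
    apply Summable.of_norm_bounded (summable_aux (Cb g))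
    intro n
    rw [Real.norm_eq_abs, abs_div, abs_of_pos (by positivity : (0:ℝ) < 2^(n+1))]
    exact div_le_div_of_nonneg_right (Dn_bound g n x) (by positivity)
  have h2 := h.add (summable_half.mul_left x)
  refine h2.congr ?_
  intro n
  rw [sub_div]
  ring

/-- the normalising coordinate -/
def Lam (g : I → GG) (x : ℝ) : ℝ := ∑' n : ℕ, Dn g n x / 2^(n+1)

theorem Lam_add_one [Nonempty I] (g : I → GG) (x : ℝ) : Lam g (x+1) = Lam g x + 1 := by
  unfold Lam
  have h : ∑' n : ℕ, Dn g n (x+1) / 2^(n+1) = ∑' n : ℕ, (Dn g n x / 2^(n+1) + 1 / 2^(n+1)) := by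
    apply tsum_congr
    intro n
    rw [Dn_add_one]
    ring
  rw [h, (summable_Dn g x).tsum_add summable_half, tsum_half]

theorem Lam_strictMono [Nonempty I] (g : I → GG) : StrictMono (Lam g) := by
  intro x y h
  unfold Lam
  apply (summable_Dn g x).tsum_lt_tsum (i := 0) _ _ (summable_Dn g y)
  · intro n
    exact div_le_div_of_nonneg_right (Dn_mono g n h.le) (by positivity)
  · simp only [Dn]
    linarith

theorem Lam_cont [Nonempty I] (g : I → GG) : Continuous (Lam g) := by
  have e : Lam g = fun x => (∑' n : ℕ, (Dn g n x - x) / 2^(n+1)) + x := by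
    funext x
    unfold Lam
    have h2 : x = ∑' n : ℕ, x * ((1:ℝ) / 2^(n+1)) := by rw [tsum_mul_left, tsum_half, mul_one]
    conv_rhs => rw [h2]
    rw [← Summable.tsum_add]
    · apply tsum_congr
      intro n
      have : ∑' n : ℕ, x * ((1:ℝ) / 2^(n+1)) = x := h2.symm
      rw [this]
      ring
    · rw [← h2]
      have h := (summable_Dn g x).sub (summable_half.mul_left x)
      refine h.congr ?_
      intro n
      rw [sub_div]; ring
    · exact summable_half.mul_left x
  rw [e]
  apply Continuous.add _ continuous_id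
  apply continuous_tsum (u := fun n : ℕ => (n:ℝ) * Cb g / 2^(n+1))
  · intro n
    exact ((Dn_cont g n).sub continuous_id).div_const _
  · exact summable_aux _
  · intro n x
    rw [Real.norm_eq_abs, abs_div, abs_of_pos (by positivity : (0:ℝ) < 2^(n+1))]
    exact div_le_div_of_nonneg_right (Dn_bound g n x) (by positivity)

theorem Lam_eq [Nonempty I] (g : I → GG) (x : ℝ) :
    ∑ l, Lam g (lt g l x) = nc I * (2 * Lam g x - x) := by
  have hc := nc_pos (I := I)
  unfold Lam
  rw [← Summable.tsum_finsetSum (fun l _ => summable_Dn g (lt g l x))]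
  rw [(summable_Dn g x).tsum_eq_zero_add]
  have e : ∀ n : ℕ, ∑ l, Dn g n (lt g l x) / 2^(n+1) = nc I * 2 * (Dn g (n+1) x / 2^(n+1+1)) := by
    intro n
    simp only [Dn]
    rw [← Finset.sum_div, pow_succ (2:ℝ) (n+1)]
    field_simp
  simp only [e]
  rw [tsum_mul_left]
  simp only [Dn]
  ring

/-- conjugates which are bi-Lipschitz -/
theorem exists_normal [Nonempty I] (g : I → GG) :
    ∃ L : GG, ∀ l x y, x ≤ y → lt (fun i => L * g i * L⁻¹) l y - lt (fun i => L * g i * L⁻¹) l x
      ≤ 2 * nc I * (y - x) := by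
  obtain ⟨L, hL⟩ := exists_unit (Lam g) (Lam_strictMono g) (Lam_cont g) (Lam_add_one g)
  refine ⟨L, ?_⟩
  intro l x y hxy
  have hc := nc_pos (I := I)
  have e : ∀ l z, lt (fun i => L * g i * L⁻¹) l z = Lam g (lt g l (L⁻¹ z)) := by
    intro l z
    rw [← hL]
    unfold lt
    rcases l with ⟨i, b⟩
    cases b
    · simp only [cond_false, mul_inv_rev, inv_inv]
      rfl
    · simp only [cond_true]
      rfl
  rw [e, e]
  set s := (L⁻¹ : GG) x with hs
  set u := (L⁻¹ : GG) y with hu
  have hsu : s ≤ u := (units_strictMono _).monotone hxy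
  have hx : x = Lam g s := by
    rw [← hL, hs, ← coe_mul', mul_inv_cancel]; rfl
  have hy : y = Lam g u := by
    rw [← hL, hu, ← coe_mul', mul_inv_cancel]; rfl
  have h1 : Lam g (lt g l u) - Lam g (lt g l s) ≤ ∑ l, (Lam g (lt g l u) - Lam g (lt g l s)) := by
    apply Finset.single_le_sum (f := fun l => Lam g (lt g l u) - Lam g (lt g l s)) _ (Finset.mem_univ l)
    intro l _
    have := (Lam_strictMono g).monotone ((units_strictMono (lt g l)).monotone hsu)
    linarith
  rw [Finset.sum_sub_distrib, Lam_eq, Lam_eq] at h1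
  rw [hx, hy]
  have h2 : 0 ≤ nc I * (u - s) := mul_nonneg hc.le (by linarith)
  nlinarith

/-! ### compactness -/

/-- tuples of equi-Lipschitz monotone degree one maps -/
def X0 (I : Type*) [Fintype I] (K B : ℝ) : Set ((I × Bool) → ℝ → ℝ) :=
  {f | (∀ l x, f l (x+1) = f l x + 1) ∧ (∀ l x y, x ≤ y → f l x ≤ f l y) ∧
    (∀ l x y, x ≤ y → f l y - f l x ≤ K * (y - x)) ∧ (∀ l, |f l 0| ≤ B)}

theorem X0_lip {K B : ℝ} {f : (I × Bool) → ℝ → ℝ} (hf : f ∈ X0 I K B) (l : I × Bool) (x y : ℝ) :
    |f l x - f l y| ≤ K * |x - y| := by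
  rcases le_total x y with h | h
  · have h1 := hf.2.1 l x y h
    have h2 := hf.2.2.1 l x y h
    rw [abs_sub_comm, abs_of_nonneg (by linarith), abs_sub_comm, abs_of_nonneg (by linarith)]
    exact h2
  · have h1 := hf.2.1 l y x h
    have h2 := hf.2.2.1 l y x h
    rw [abs_of_nonneg (by linarith), abs_of_nonneg (by linarith)]
    exact h2

theorem isClosed_X0 (K B : ℝ) : IsClosed (X0 I K B) := by
  have hcont : ∀ (l : I × Bool) (x : ℝ), Continuous (fun f : (I × Bool) → ℝ → ℝ => f l x) :=
    fun l x => (continuous_apply x).comp (continuous_apply l)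
  have e : X0 I K B = (⋂ l, ⋂ x, {f : (I × Bool) → ℝ → ℝ | f l (x+1) = f l x + 1})
    ∩ ((⋂ l, ⋂ x, ⋂ y, ⋂ (_ : x ≤ y), {f : (I × Bool) → ℝ → ℝ | f l x ≤ f l y})
    ∩ ((⋂ l, ⋂ x, ⋂ y, ⋂ (_ : x ≤ y), {f : (I × Bool) → ℝ → ℝ | f l y - f l x ≤ K * (y - x)})
    ∩ (⋂ l, {f : (I × Bool) → ℝ → ℝ | |f l 0| ≤ B}))) := by
    ext f
    simp only [X0, mem_inter_iff, mem_iInter, mem_setOf_eq]
  rw [e]
  refine IsClosed.inter ?_ (IsClosed.inter ?_ (IsClosed.inter ?_ ?_))
  · refine isClosed_iInter (fun l => isClosed_iInter (fun x => ?_))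
    exact isClosed_eq (hcont l (x+1)) ((hcont l x).add continuous_const)
  · refine isClosed_iInter (fun l => isClosed_iInter (fun x => isClosed_iInter (fun y =>
      isClosed_iInter (fun _ => ?_))))
    exact isClosed_le (hcont l x) (hcont l y)
  · refine isClosed_iInter (fun l => isClosed_iInter (fun x => isClosed_iInter (fun y =>
      isClosed_iInter (fun _ => ?_))))
    exact isClosed_le ((hcont l y).sub (hcont l x)) continuous_const
  · refine isClosed_iInter (fun l => ?_)
    exact isClosed_le (hcont l 0).abs continuous_const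

theorem isCompact_X0 (K B : ℝ) : IsCompact (X0 I K B) := by
  have hc : IsCompact (Set.pi univ (fun _ : I × Bool => Set.pi univ (fun x : ℝ => Icc (-(B + K * |x|)) (B + K * |x|)))) := by
    apply isCompact_univ_pi
    intro _
    apply isCompact_univ_pi
    intro x
    exact isCompact_Icc
  apply hc.of_isClosed_subset (isClosed_X0 K B)
  intro f hf l _ x _
  have h1 := X0_lip hf l x 0
  have h2 := hf.2.2.2 l
  rw [sub_zero] at h1
  have h3 : |f l x| ≤ B + K * |x| := by
    have := abs_sub_abs_le_abs_sub (f l x) (f l 0)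
    linarith
  exact abs_le.mp h3

/-- evaluation of a word -/
def ev (w : List (I × Bool)) (x : ℝ) (f : (I × Bool) → ℝ → ℝ) : ℝ := w.foldr (fun l y => f l y) x

theorem cont_comp {K B : ℝ} (l : I × Bool) (g : ((I × Bool) → ℝ → ℝ) → ℝ)
    (hg : ContinuousOn g (X0 I K B)) : ContinuousOn (fun f => f l (g f)) (X0 I K B) := by
  intro f0 hf0
  have h1 : Tendsto (fun f : (I × Bool) → ℝ → ℝ => f l (g f0)) (𝓝[X0 I K B] f0) (𝓝 (f0 l (g f0))) :=
    (((continuous_apply (g f0)).comp (continuous_apply l)).tendsto f0).mono_left nhdsWithin_le_nhds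
  have h2 : Tendsto (fun f : (I × Bool) → ℝ → ℝ => f l (g f) - f l (g f0)) (𝓝[X0 I K B] f0) (𝓝 0) := by
    have h3 : Tendsto (fun f : (I × Bool) → ℝ → ℝ => K * |g f - g f0|) (𝓝[X0 I K B] f0) (𝓝 0) := by
      have h4 : Tendsto (fun f => g f - g f0) (𝓝[X0 I K B] f0) (𝓝 (g f0 - g f0)) := (hg f0 hf0).sub tendsto_const_nhds
      have h5 := (h4.abs).const_mul K
      simpa using h5
    apply squeeze_zero_norm' _ h3
    filter_upwards [self_mem_nhdsWithin] with f hf
    rw [Real.norm_eq_abs]
    exact X0_lip hf l _ _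
  have h6 := h2.add h1
  simp only [sub_add_cancel, zero_add] at h6
  exact h6

theorem cont_ev {K B : ℝ} (w : List (I × Bool)) (x : ℝ) : ContinuousOn (ev w x) (X0 I K B) := by
  induction w with
  | nil => exact continuousOn_const
  | cons l w ih => exact cont_comp l _ ih

/-- the admissible tuples -/
def X1 (p : I → ℤ) (q : I → ℕ) (K B : ℝ) : Set ((I × Bool) → ℝ → ℝ) :=
  {f | f ∈ X0 I K B ∧ (∀ i x, f (i, true) (f (i, false) x) = x) ∧
    (∀ i x, f (i, false) (f (i, true) x) = x) ∧ (∀ i x, ev (List.replicate (q i) (i, true)) x f = x + p i)}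

theorem isCompact_X1 (p : I → ℤ) (q : I → ℕ) (K B : ℝ) : IsCompact (X1 p q K B) := by
  have hcl : IsClosed (X1 p q K B) := by
    have e : X1 p q K B = (X0 I K B) ∩ ((⋂ i, ⋂ x, (X0 I K B ∩ (ev [(i, true), (i, false)] x) ⁻¹' {x}))
      ∩ ((⋂ i, ⋂ x, (X0 I K B ∩ (ev [(i, false), (i, true)] x) ⁻¹' {x}))
      ∩ (⋂ i, ⋂ x, (X0 I K B ∩ (ev (List.replicate (q i) (i, true)) x) ⁻¹' {x + p i})))) := by
      ext f
      simp only [X1, mem_inter_iff, mem_iInter, mem_setOf_eq, mem_preimage, mem_singleton_iff]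
      constructor
      · rintro ⟨h1, h2, h3, h4⟩
        exact ⟨h1, fun i x => ⟨h1, h2 i x⟩, fun i x => ⟨h1, h3 i x⟩, fun i x => ⟨h1, h4 i x⟩⟩
      · rintro ⟨h1, h2, h3, h4⟩
        exact ⟨h1, fun i x => (h2 i x).2, fun i x => (h3 i x).2, fun i x => (h4 i x).2⟩
    rw [e]
    refine IsClosed.inter (isClosed_X0 K B) (IsClosed.inter ?_ (IsClosed.inter ?_ ?_))
    · exact isClosed_iInter (fun i => isClosed_iInter (fun x =>
        (cont_ev _ x).preimage_isClosed_of_isClosed (isClosed_X0 K B) isClosed_singleton))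
    · exact isClosed_iInter (fun i => isClosed_iInter (fun x =>
        (cont_ev _ x).preimage_isClosed_of_isClosed (isClosed_X0 K B) isClosed_singleton))
    · exact isClosed_iInter (fun i => isClosed_iInter (fun x =>
        (cont_ev _ x).preimage_isClosed_of_isClosed (isClosed_X0 K B) isClosed_singleton))
  exact (isCompact_X0 K B).of_isClosed_subset hcl (fun f hf => hf.1)

/-- units from an admissible tuple -/
def un {p : I → ℤ} {q : I → ℕ} {K B : ℝ} (f : X1 p q K B) (i : I) : GG where
  val := ⟨⟨f.1 (i, true), fun x y h => f.2.1.2.1 _ x y h⟩, f.2.1.1 _⟩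
  inv := ⟨⟨f.1 (i, false), fun x y h => f.2.1.2.1 _ x y h⟩, f.2.1.1 _⟩
  val_inv := by
    apply CircleDeg1Lift.ext
    intro x
    exact f.2.2.1 i x
  inv_val := by
    apply CircleDeg1Lift.ext
    intro x
    exact f.2.2.2.1 i x

theorem un_lt {p : I → ℤ} {q : I → ℕ} {K B : ℝ} (f : X1 p q K B) (l : I × Bool) (x : ℝ) :
    lt (un f) l x = f.1 l x := by
  rcases l with ⟨i, b⟩
  cases b <;> rfl

/-- evaluation of the representation on a word -/
theorem rep_apply (g : I → GG) (w : FreeGroup I) (x : ℝ) [DecidableEq I] :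
    (FreeGroup.lift g w : GG) x = (w.toWord).foldr (fun l y => lt g l y) x := by
  conv_lhs => rw [← FreeGroup.mk_toWord (x := w)]
  rw [FreeGroup.lift_mk]
  generalize w.toWord = L
  induction L with
  | nil => rfl
  | cons l L ih =>
    rw [List.map_cons, List.prod_cons, coe_mul', ih]
    rcases l with ⟨i, b⟩
    cases b <;> rfl

theorem rep_ev {p : I → ℤ} {q : I → ℕ} {K B : ℝ} (f : X1 p q K B) (w : FreeGroup I) (x : ℝ)
    [DecidableEq I] : (FreeGroup.lift (un f) w : GG) x = ev w.toWord x f.1 := by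
  rw [rep_apply]
  unfold ev
  congr 1
  funext l y
  exact un_lt f l y

/-- continuity of the translation number -/
theorem cont_tau {p : I → ℤ} {q : I → ℕ} {K B : ℝ} (w : FreeGroup I) [DecidableEq I] :
    Continuous (fun f : X1 p q K B => CircleDeg1Lift.translationNumber (FreeGroup.lift (un f) w : GG)) := by
  rw [Metric.continuous_iff']
  intro f0 ε hε
  obtain ⟨n, hn⟩ := exists_nat_gt (4 / ε)
  have hn0 : (0:ℝ) < n := lt_trans (by positivity) hn
  have hG : Continuous (fun f : X1 p q K B => ev (w ^ n).toWord 0 f.1) := by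
    have h1 := cont_ev (K := K) (B := B) (w ^ n).toWord (0:ℝ)
    have h2 : ContinuousOn (ev (w ^ n).toWord 0) (X1 p q K B) := h1.mono (fun f hf => hf.1)
    exact continuousOn_iff_continuous_restrict.mp h2
  have h2 := (Metric.continuous_iff'.mp hG) f0 1 one_pos
  have key : ∀ f : X1 p q K B, |ev (w ^ n).toWord 0 f.1 - n * CircleDeg1Lift.translationNumber (FreeGroup.lift (un f) w : GG)| ≤ 1 := by
    intro f
    have h3 := CircleDeg1Lift.dist_pow_map_zero_mul_translationNumber_le (FreeGroup.lift (un f) w : GG) n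
    rw [Real.dist_eq] at h3
    have h4 : ((FreeGroup.lift (un f) w : GG) : CircleDeg1Lift) ^ n = ((FreeGroup.lift (un f) (w^n) : GG) : CircleDeg1Lift) := by
      rw [map_pow]; rfl
    rw [h4] at h3
    have h5 := rep_ev f (w ^ n) 0
    rw [← h5]
    exact h3
  filter_upwards [h2] with f hf
  rw [Real.dist_eq] at hf ⊢
  have k1 := key f
  have k2 := key f0
  rw [abs_le] at k1 k2
  rw [abs_lt] at hf ⊢
  rw [div_lt_iff₀ hε] at hn
  constructor
  · by_contra hcon
    push Not at hcon
    nlinarith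
  · by_contra hcon
    push Not at hcon
    nlinarith

end

end Pool.Agent.Helper1.Rot
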