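import Pool.Agent.Helper1.Rot.Attained

namespace Pool.Agent.Helper1.Rot

open Filter Topology Set

noncomputable section

variable {I : Type*} [Fintype I]

theorem foldr_replicate (f : (I × Bool) → ℝ → ℝ) (l : I × Bool) (n : ℕ) (x : ℝ) :
    ev (List.replicate n l) x f = (f l)^[n] x := by
  induction n with
  | zero => rfl
  | succ n ih =>
    rw [List.replicate_succ, Function.iterate_succ_apply', ← ih]
    rfl

theorem pow_apply' (g : GG) (n : ℕ) (x : ℝ) : (g ^ n : GG) x = (g : ℝ → ℝ)^[n] x := by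
  induction n with
  | zero => rfl
  | succ n ih =>
    rw [Function.iterate_succ_apply', ← ih, pow_succ']
    rfl

theorem tau_TT (t : ℝ) : CircleDeg1Lift.translationNumber (TT t : GG) = t :=
  CircleDeg1Lift.translationNumber_translate t

theorem tau_conj {f g : GG} (h : IsConj f g) :
    CircleDeg1Lift.translationNumber (f : CircleDeg1Lift) = CircleDeg1Lift.translationNumber (g : CircleDeg1Lift) := by
  rw [isConj_iff] at h
  obtain ⟨c, rfl⟩ := h
  have := CircleDeg1Lift.translationNumber_conj_eq c (f : CircleDeg1Lift)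
  rw [← this]
  rfl

/-- the bound for the values at zero -/
def BB (p : I → ℤ) (q : I → ℕ) : ℝ := ∑ i, |(p i : ℝ) / q i| + 1

/-- every admissible family is conjugate to an element of the compact set -/
theorem exists_mem [Nonempty I] [DecidableEq I] (p : I → ℤ) (q : I → ℕ) (hq : ∀ i, 0 < q i)
    (g : I → GG) (hg : ∀ i, IsConj (g i) (TT ((p i : ℝ) / q i))) :
    ∃ f : X1 p q (2 * nc I) (BB p q), ∀ w : FreeGroup I,
      CircleDeg1Lift.translationNumber (FreeGroup.lift (un f) w : GG)
        = CircleDeg1Lift.translationNumber (FreeGroup.lift g w : GG) := by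
  obtain ⟨L, hL⟩ := exists_normal g
  set g' : I → GG := fun i => L * g i * L⁻¹ with hg'
  have hconj : ∀ i, IsConj (g' i) (TT ((p i : ℝ) / q i)) := by
    intro i
    have h1 : IsConj (g i) (g' i) := isConj_iff.2 ⟨L, rfl⟩
    exact h1.symm.trans (hg i)
  have hmem : (fun l => (lt g' l : ℝ → ℝ)) ∈ X1 p q (2 * nc I) (BB p q) := by
    refine ⟨⟨?_, ?_, ?_, ?_⟩, ?_, ?_, ?_⟩
    · intro l x
      exact CircleDeg1Lift.map_add_one _ _
    · intro l x y h
      exact (units_strictMono _).monotone h
    · intro l x y h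
      exact hL l x y h
    · intro l
      rcases l with ⟨i, b⟩
      have h1 := tau_conj (hconj i)
      rw [tau_TT] at h1
      have h0 : |(p i : ℝ) / q i| ≤ ∑ i, |(p i : ℝ) / q i| :=
        Finset.single_le_sum (f := fun i => |(p i : ℝ) / q i|) (fun _ _ => abs_nonneg _) (Finset.mem_univ i)
      unfold BB
      cases b
      · have h2 := CircleDeg1Lift.dist_map_zero_translationNumber_le ((g' i)⁻¹ : GG)
        rw [CircleDeg1Lift.translationNumber_units_inv, h1, Real.dist_eq] at h2
        show |((g' i)⁻¹ : GG) 0| ≤ _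
        have h4 := abs_sub_abs_le_abs_sub (((g' i)⁻¹ : GG) 0) (-((p i : ℝ) / q i))
        rw [abs_neg] at h4
        linarith
      · have h2 := CircleDeg1Lift.dist_map_zero_translationNumber_le (g' i : GG)
        rw [h1, Real.dist_eq] at h2
        show |(g' i : GG) 0| ≤ _
        have h4 := abs_sub_abs_le_abs_sub ((g' i : GG) 0) ((p i : ℝ) / q i)
        linarith
    · intro i x
      show (g' i) ((g' i)⁻¹ x) = x
      rw [← coe_mul', mul_inv_cancel]; rfl
    · intro i x
      show ((g' i)⁻¹ : GG) (g' i x) = x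
      rw [← coe_mul', inv_mul_cancel]; rfl
    · intro i x
      rw [foldr_replicate]
      show (g' i : ℝ → ℝ)^[q i] x = x + p i
      rw [← pow_apply', (isConj_rat_iff (g' i) (p i) (hq i)).1 (hconj i), TT_apply, add_comm]
  refine ⟨⟨_, hmem⟩, ?_⟩
  intro w
  have hun : un ⟨_, hmem⟩ = g' := by
    funext i
    apply coe_inj
    intro x
    rfl
  rw [hun]
  have hlift : FreeGroup.lift g' w = L * FreeGroup.lift g w * L⁻¹ := by
    have h1 : FreeGroup.lift g' = (MulAut.conj L).toMonoidHom.comp (FreeGroup.lift g) := by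
      apply FreeGroup.ext_hom
      intro i
      simp [hg']
    rw [h1]
    rfl
  rw [hlift]
  exact (tau_conj (isConj_iff.2 ⟨L, rfl⟩)).symm

/-- **The supremum defining `R(w, r-, s-)` is attained.** -/
theorem attained [Nonempty I] [DecidableEq I] (w : FreeGroup I) (p : I → ℤ) (q : I → ℕ)
    (hq : ∀ i, 0 < q i) :
    ∃ ρ : FreeGroup I →* GG, (∀ i, IsConj (ρ (FreeGroup.of i)) (TT ((p i : ℝ) / q i))) ∧
      ∀ ρ' : FreeGroup I →* GG, (∀ i, IsConj (ρ' (FreeGroup.of i)) (TT ((p i : ℝ) / q i))) →
        CircleDeg1Lift.translationNumber (ρ' w : GG) ≤ CircleDeg1Lift.translationNumber (ρ w : GG) := by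
  have hne : (univ : Set (X1 p q (2 * nc I) (BB p q))).Nonempty := by
    obtain ⟨f, _⟩ := exists_mem p q hq (fun i => TT ((p i : ℝ) / q i)) (fun i => IsConj.refl _)
    exact ⟨f, mem_univ _⟩
  haveI : CompactSpace (X1 p q (2 * nc I) (BB p q)) :=
    isCompact_iff_compactSpace.1 (isCompact_X1 p q _ _)
  obtain ⟨f, _, hf⟩ := isCompact_univ.exists_isMaxOn hne (cont_tau (p := p) (q := q) w).continuousOn
  refine ⟨FreeGroup.lift (un f), ?_, ?_⟩
  · intro i
    rw [FreeGroup.lift_apply_of, isConj_rat_iff _ _ (hq i)]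
    apply coe_inj
    intro x
    rw [pow_apply', TT_apply]
    have h1 := f.2.2.2.2 i x
    rw [foldr_replicate] at h1
    rw [add_comm]
    exact h1
  · intro ρ' hρ'
    obtain ⟨f', hf'⟩ := exists_mem p q hq (fun i => ρ' (FreeGroup.of i)) hρ'
    have h1 : FreeGroup.lift (fun i => ρ' (FreeGroup.of i)) = ρ' := by
      apply FreeGroup.ext_hom
      intro i
      simp
    have h2 := hf' w
    rw [h1] at h2
    rw [← h2]
    exact hf (mem_univ f')

end

end Pool.Agent.Helper1.Rot
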